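import Pool.Agent.Run7.h709.AC.Chi
import Pool.Agent.Run7.h709.AC.Cs
import Pool.Agent.Run7.h709.AC.Emb

/-!
# The Singer-Hopf inequality for aspherical manifolds whose fundamental groups embed in right-angled Coxeter groups

Let `W G` be the right-angled Coxeter group of the finite graph `G`, and let `Γ` be the kernel of `W G → (ℤ/2)^V`, a
torsion free subgroup of finite index. We prove `(-1)^e χ(K) ≥ 0` for all the Poincaré duality subgroups `K` of `Γ` (of
type FL, orientable or not, of finite or infinite index) of dimension `2 e ≥ 2 b - 2`, if the set of all vertices of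
`G` is in the class `AC G b`, and `χ(K) = 0` if `2 e ≥ 2 b`. So the Singer-Hopf inequality holds for all the closed
aspherical manifolds of dimension `2 e ≥ 2 b - 2` whose fundamental groups are isomorphic to subgroups of `Γ`.

The class `AC G b` contains the sets whose cliques have at most `b` elements and for which the `ℓ²`-homology of the
Davis complex vanishes in the top degree `b`, and is closed under cones and suspensions (with the same `b`), under
adding a vertex whose link is in the class `b - 1`, and under gluing along full subcomplexes of the class `b - 1`. The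
proof shows that the `L²`-Betti numbers `b_k(K)` vanish for all `k ≥ b` and all subgroups `K` of `Γ`, and uses duality.

Four families of examples are part of the theorem: (2) simplicial complexes in the sphere of dimension `2 d`, with
vertices coloured by `d + 1` colours and without monochromatic triangles, after the subdivision of the monochromatic
edges (`b = d + 1`); (3) joins of `m` graphs which are `2`-degenerate (`b = m + 1`; for example joins of polygons,
trees, series-parallel graphs, or of arbitrary graphs with subdivided edges); (4) the first barycentric subdivisions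
of ALL simplicial complexes of dimension at most `2 m - 1`, `m ≤ 3` (`b = m + 1`; no embedding, no flagness, no
manifold is assumed), and more generally the colourwise subdivisions of simplicial complexes such that the simplices
of one special colour have at most six and those of the other colours at most two vertices, in all dimensions;
(5) the colourwise subdivisions of complexes of dimension at most `2 d` in the sphere of dimension `2 d`, `d ≤ 2`
(`b = d + 1`; this includes the subgroups of codimension one).
-/

set_option autoImplicit false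

namespace Pool.Agent.Results.MP_9d0d86_gt.DualitySubgroupSigns

open Pool.Agent.W907.SG Pool.Agent.W461.SGN Pool.Agent.N496.CV Pool.Agent.R782.Bal Run7.h709.AC

/-- If `K` is a Poincaré duality group of dimension `2 e ≥ 2 b` (of type FL), then `(-1)^e χ(K) ≥ 0`, and `χ(K) = 0`
if `e > b`. The Euler characteristic `χ(K)` is computed by any resolution `C` of `ℤ` by finitely generated free modules
which is zero above some degree `s`. -/
def SignLaw (K : Type) [Group K] (b : ℕ) : Prop :=
  ∀ e : ℕ, b ≤ e → Nonempty (PD K (2 * e)) → ∀ (C : V7N.FreeRes K) (s : ℕ), (∀ i, s < i → C.r i = 0) →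
    0 ≤ (-1 : ℤ) ^ e * ∑ i ∈ Finset.range (s + 1), (-1 : ℤ) ^ i * (C.r i : ℤ) ∧
    (b < e → ∑ i ∈ Finset.range (s + 1), (-1 : ℤ) ^ i * (C.r i : ℤ) = 0)

theorem sign_pd {V : Type} [Fintype V] [LinearOrder V] (G : SimpleGraph V) {b : ℕ} (hAC : AC G (b + 1) Set.univ)
    (K : Subgroup (W G)) (hK : K ≤ (th G).ker) : SignLaw K b := by
  rintro e he ⟨P⟩ C s hs
  refine ⟨euler_sign C s e hs fun k hk => pd_mid G hAC K hK P (by omega) k (by omega), fun h => ?_⟩
  exact chiR_zero C s hs fun k => pd_all G hAC K hK P (by omega) k

/-- `X` is a simplicial complex, and each simplex of `X` all of whose vertices have the colour `c` has at most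
`2 a c` vertices. -/
def Bounded {N n : ℕ} (X : Finset (Finset (Fin N))) (col : Fin N → Fin n) (a : Fin n → ℕ) : Prop :=
  (∀ σ ∈ X, ∀ τ : Finset (Fin N), τ ⊆ σ → τ ∈ X) ∧
    ∀ σ ∈ X, ∀ c, (∀ v ∈ σ, col v = c) → σ.card ≤ 2 * a c

/-- Let `K` be a subgroup, of arbitrary index, of the kernel of `W G → (ℤ/2)^V`. (1) If the set of all vertices of the
finite graph `G` is in the class `AC G (b + 1)` and `K` is a Poincaré duality group of dimension `2 e ≥ 2 b` then
`(-1)^e χ(K) ≥ 0`, and `χ(K) = 0` if `e > b`. (2) This holds for `e ≥ d` if `G` is obtained from a simplicial complex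
`X` embedded in the sphere of dimension `2 d`, with vertices coloured by `d + 1` colours and without monochromatic
triangles, by subdividing the monochromatic edges. (3) This holds for `e ≥ m` if `G` is the join of `m` graphs which
are `2`-degenerate. (4) This holds for `e ≥ ∑ a c` if `G` is the graph of the colourwise barycentric subdivision (with
one colour: the barycentric subdivision) of a finite simplicial complex `X` with coloured vertices such that the
simplices with all the vertices of the colour `c` have at most `2 a c` vertices, `a c₀ ≤ 3` for one colour `c₀`,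
`a c ≤ 1` for the others. (5) This holds for `e ≥ d` if `G` is such a subdivision, `d ≤ 2`, `∑ a c ≤ d + 1`, and `X` is
of dimension at most `2 d` and embedded in the sphere of dimension `2 d`. -/
theorem result :
    (∀ (b : ℕ) (V : Type) [Fintype V] [LinearOrder V] (G : SimpleGraph V), AC G (b + 1) Set.univ →
      ∀ K : Subgroup (W G), K ≤ (th G).ker → SignLaw K b) ∧
    (∀ (d N : ℕ) (X : Finset (Finset (Fin N))) (col : Fin N → Fin (d + 1)),
      (∀ σ ∈ X, ∀ τ : Finset (Fin N), τ ⊆ σ → τ ∈ X) →
      (∀ σ ∈ X, (∀ v ∈ σ, ∀ w ∈ σ, col v = col w) → σ.card ≤ 2) → EmbX d X col →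
      ∀ [Fintype (MF X col)] [LinearOrder (MF X col)], ∀ K : Subgroup (W (cs X col)), K ≤ (th (cs X col)).ker →
        SignLaw K d) ∧
    (∀ (m : ℕ) (V : Type) [Fintype V] [LinearOrder V] (G : SimpleGraph V) (p : V → Fin m),
      (∀ u v, p u ≠ p v → G.Adj u v) → (∀ i, Deg2 G p i) → ∀ K : Subgroup (W G), K ≤ (th G).ker →
        SignLaw K m) ∧
    (∀ (N n : ℕ) (X : Finset (Finset (Fin N))) (col : Fin N → Fin n) (a : Fin n → ℕ) (c₀ : Fin n),
      Bounded X col a → a c₀ ≤ 3 → (∀ c, c ≠ c₀ → a c ≤ 1) →
      ∀ [Fintype (MF X col)] [LinearOrder (MF X col)], ∀ K : Subgroup (W (cs X col)), K ≤ (th (cs X col)).ker →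
        SignLaw K (∑ c, a c)) ∧
    (∀ (N n d : ℕ) (X : Finset (Finset (Fin N))) (col : Fin N → Fin n) (a : Fin n → ℕ),
      Bounded X col a → d ≤ 2 → ∑ c, a c ≤ d + 1 → (∀ σ ∈ X, σ.card ≤ 2 * d + 1) → EmbX d X col →
      ∀ [Fintype (MF X col)] [LinearOrder (MF X col)], ∀ K : Subgroup (W (cs X col)), K ≤ (th (cs X col)).ker →
        SignLaw K d) := by
  refine ⟨?_, ?_, ?_, ?_, ?_⟩
  · intro b V _ _ G h K hK
    exact sign_pd G h K hK
  · intro d N X col hX ht hE _ _ K hK
    exact sign_pd _ (ac_cs hX ht hE) K hK
  · intro m V _ _ G p hp hd K hK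
    exact sign_pd G (ac_joins p hp hd) K hK
  · intro N n X col a c₀ hX h3 h1 _ _ K hK
    exact sign_pd _ (ac_bary hX.1 a c₀ h3 h1 hX.2) K hK
  · intro N n d X col a hX hd hsum hdim hE _ _ K hK
    exact sign_pd _ (ac_bary_emb hX.1 a d hd hsum hX.2 hdim (hE.emb hX.1).obs) K hK

end Pool.Agent.Results.MP_9d0d86_gt.DualitySubgroupSigns
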