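import Pool.Agent.Run7.h31.Raise.Density

/-!
# The Singer-Hopf sign and chain endomorphisms which raise heights in degrees of one parity

Let `G` be an infinite group with a Poincaré duality complex `D` of dimension `2 n` over the complex
group algebra, for instance the fundamental group of a closed aspherical manifold of dimension `2 n`
with the cellular complex of the universal covering. We bound `(-1) ^ n χ` from below by means of
chain endomorphisms which lift the identity of the trivial module and raise the heights of the basis
elements in an ordered set, over subgroups of finite index. Only the degrees `m` with `0 < m < n` and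
`n - m` odd matter, and the numbers of the exceptions count relative to the index. Thus in dimension
four only the degree `1` matters, and in dimension six only the degree `2`.

Outline. The restriction of the complex to a subgroup of finite index is a Poincaré duality complex
whose `L²`-Betti numbers are multiplied by the index. Hence the bound of
`MP_984acc_gt.OrderRaising` for the degrees `m` and `2 n - m` gives bounds of the `L²`-Betti numbers of
`G` by the densities. The degrees `0` and `2 n` do not contribute because `G` is infinite. The
Euler-Poincaré formula expresses `(-1) ^ n χ` as the sum of the `L²`-Betti numbers whose degrees are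
congruent to `n` modulo two minus the sum of the others.
-/

set_option autoImplicit false

universe u v

namespace Pool.Agent.Results.MP_9d0d86_gt.OddCodegrees

open Pool.Agent.Results.MP_984acc_gt.OrderRaising Run7.h31.Raise

/-- **The Singer-Hopf sign and the degrees of the other parity.** Let `D` be the complex of a
Poincaré duality group structure of even dimension `2 n` on the infinite group `G`.

1. If for all `m` with `1 ≤ m < n` and `n + m` odd the group `G` is raised in degree `m` with density
at most `ε m`, then `(-1) ^ n χ` is at least the `n`-th `L²`-Betti number minus the double of the sum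
of these `ε m`.
2. If for each such `m` the group `G` is raised in degree `m` with density zero, or virtually has an
ordered set whose upper subcomplexes are exact in the degrees less than `m`, or virtually has a
left-invariant total order whose monoid `{g | 1 ≤ g}` is of type `FP_m`, then
`0 ≤ (-1) ^ n χ`. -/
theorem result (G : Type u) [Group G] [Infinite G] (n : ℕ) (r : ℕ → ℕ) (D : Matrices G r)
    (hD : IsDualityComplex (2 * n) D) :
    (∀ ε : ℕ → ℝ, (∀ m, 1 ≤ m → m < n → Odd (n + m) → RaisedWithDensity.{u, v} G m (ε m)) →
      betti D n - 2 * ∑ m ∈ oddCo n, ε m ≤ (-1) ^ n * (eulerChar (2 * n) r : ℝ)) ∧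
    ((∀ m, 1 ≤ m → m < n → Odd (n + m) → RaisedWithDensity.{u, v} G m 0 ∨
      VirtuallyUpperExact.{u, v} G m ∨ VirtuallyOrderedFP.{u} G m) →
      0 ≤ (-1) ^ n * eulerChar (2 * n) r) := by
  have hnn : ∀ S : Finset ℕ, 0 ≤ ∑ m ∈ S, (betti D m + betti D (2 * n - m)) := fun S =>
    Finset.sum_nonneg fun m _ => add_nonneg (betti_nonneg D m) (betti_nonneg D _)
  have key : ∀ ε : ℕ → ℝ, (∀ m, 1 ≤ m → m < n → Odd (n + m) →
      betti D m ≤ ε m ∧ betti D (2 * n - m) ≤ ε m) →
      betti D n - 2 * ∑ m ∈ oddCo n, ε m ≤ (-1) ^ n * (eulerChar (2 * n) r : ℝ) := by
    intro ε h
    rw [euler_cast D hD, sign_formula]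
    have h1 := odd_sum_le (betti D) ε n (fun hn => ends_zero D hD hn) h
    have h2 := hnn ((Finset.range n).filter fun m => ¬ Odd (n + m))
    linarith
  constructor
  · intro ε h
    apply key
    intro m h1 h2 h3
    have h4 := density_bound D hD m (ε m) (h m h1 h2 h3)
    exact ⟨h4.1, h4.2 (by omega)⟩
  · intro h
    have h1 := key (fun _ => 0) (by
      intro m h1 h2 h3
      rcases h m h1 h2 h3 with h4 | h4 | h4
      · have h5 := density_bound D hD m 0 h4
        exact ⟨h5.1, h5.2 (by omega)⟩
      · have h5 := density_bound D hD m 0 (density_of_upper h4)
        exact ⟨h5.1, h5.2 (by omega)⟩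
      · have h5 := density_bound D hD m 0 (density_of_ordered h4)
        exact ⟨h5.1, h5.2 (by omega)⟩)
    rw [Finset.sum_const_zero, mul_zero, sub_zero] at h1
    have h2 : (0 : ℝ) ≤ (((-1) ^ n * eulerChar (2 * n) r : ℤ) : ℝ) := by
      push_cast
      exact (betti_nonneg D n).trans h1
    exact_mod_cast h2

end Pool.Agent.Results.MP_9d0d86_gt.OddCodegrees
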