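import Pool.Agent.Run7.h604.HK.Sign

/-!
# The Singer-Hopf inequality: weak forms which imply it

A class of closed aspherical manifolds closed under products and containing the surfaces, or more
generally a class of cocompact complexes (`Cplx`), is considered; `χ` is the Euler characteristic, `N`
the number of the orbits of cells (weighted by the orders of the stabilizers) and `B` the sum of all
`L²`-Betti numbers.

(1) The inequality `(-1) ^ n χ ≥ 0` holds for all members of even dimension `2 n` if and only if for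
each `ε > 0` it holds in infinitely many even dimensions `2 m` up to an error `ε ^ m N + β`, with any
number `β` depending on `m` and `ε`.

(2) If in infinitely many even dimensions `2 m` the inequality holds in the quantitative form
`(-1) ^ m χ ≥ e ^ (- o (m)) B` for the members with `B` large, then `(-1) ^ n χ ≥ B` for all members
of even dimension `2 n` (as `|χ| ≤ B`, there are then no `L²`-Betti numbers in the degrees of the
parity of `n + 1`).

Outline. The Künneth formula for reduced `L²`-homology, which is proved for these complexes, and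
products of an odd number of copies of a member with surfaces of large genus.
-/

set_option autoImplicit false

namespace Pool.Agent.Results.MP_9d0d86_gt.SignLaw

open Pool.Agent.Run7.h604.HK

theorem result (𝒞 : Cplx → Prop) (hp : ∀ A B, 𝒞 A → 𝒞 B → 𝒞 (A.prod B))
    (hS : ∀ t : ℝ, ∃ S, 𝒞 S ∧ S.dim = 2 ∧ t ≤ -S.euler ∧ S.mass ≤ 3 * -S.euler ∧
      -S.euler ≤ S.total) :
    ((∀ n A, 𝒞 A → A.dim = 2 * n → 0 ≤ (-1) ^ n * A.euler) ↔
      ∀ ε : ℝ, 0 < ε → ∀ N : ℕ, ∃ m ≥ N, ∃ β : ℝ, ∀ A, 𝒞 A → A.dim = 2 * m →
        -(ε ^ m * A.mass + β) ≤ (-1) ^ m * A.euler) ∧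
    ((∀ n A, 𝒞 A → A.dim = 2 * n → A.total ≤ (-1) ^ n * A.euler) ↔
      ∀ δ : ℝ, 0 < δ → ∀ N : ℕ, ∃ m ≥ N, ∃ β : ℝ, ∀ A, 𝒞 A → A.dim = 2 * m →
        Real.exp (-(δ * m)) * (A.total - β) ≤ (-1) ^ m * A.euler) :=
  Cplx.sign_laws 𝒞 hp hS

end Pool.Agent.Results.MP_9d0d86_gt.SignLaw
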