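import Pool.Agent.Run7.h82.P6.Fld

/-!
# Negative curvature with pinching `1 / 6` in dimension six: the sharp Singer-Hopf inequality

Let all sectional curvatures at a point of a Riemannian six-manifold lie in `[-6 c, -c]`, `c > 0`.
Then the Gauss-Bonnet-Chern integrand is at most `- roundGB c * (1 + (-scal / c - 30) / 240)`, hence
at most its value `- roundGB c` for constant curvature `-c`, with equality only for constant
curvature. Integrated: the Euler characteristic of a closed six-manifold of pointwise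
`1 / 6`-pinched negative curvature is negative, and if `-6 c ≤ K ≤ -c`, then
`χ ≤ - roundGB c * vol`, with equality exactly for constant curvature `-c`.

(`Pool/Agent/Run7/h82/P6/ExV.lean` has an Einstein curvature tensor with `-15 c ≤ K ≤ -c` whose
integrand is positive; it is not part of this result.)

Proof (`Pool/Agent/Run7/h82/P6/`). Write `-R = c (1 + 5 T)`, `0 ≤ K_T ≤ 1`. The integrand is a cubic
polynomial in the invariants of `T`. The required inequality is a combination with nonnegative
coefficients of (a) averages over the sphere of `tr (P J P) ≥ 0`, `tr (P (1 - J) P) ≥ 0`, where `J` is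
the Jacobi operator and `P` a combination of `1, J, Ric` on `x^⊥`; (b) averages of
`∑ A_ij q^i_{bcd} q^j_{bcd} ≥ 0` for `A = J` and `A = 1 - J`, with
`q^i_{bcd} = π_ib X_cd - π_ic X_bd - (π_bd X_ic - π_cd X_ib) / 4 + γ W_idbc`, `X` the trace-free part of a
combination of `J` and `Ric`, `W` the Weyl part of the restriction of `T` to `x^⊥`; (c) the pairings of
`T` with the tensors dual to `T ∧ T` and `(1 - T) ∧ (1 - T)`. The scalar curvature of `T` is in
`[0, 12]`, `[12, 15]` or `[15, 30]`, with one exact rational certificate for each interval.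
-/

set_option autoImplicit false

namespace Pool.Agent.Results.MP_9d0d86_gt.SixthPinchingDimSix

open Hopf6 Pool.Agent.TH570.Hopf Pool.Agent.Run7.h82.P6 MeasureTheory

/-- The sharp Singer-Hopf inequality in dimension six for curvature in `[-6 c, -c]`. -/
theorem result :
    (∀ (V : Type) [NormedAddCommGroup V] [InnerProductSpace ℝ V]
      (e : OrthonormalBasis (Fin 6) ℝ V) (R : V → V → V → V → ℝ), AlgCurv R →
      ∀ c : ℝ, 0 < c → Hopf6.SecIn R (-(6 * c)) (-c) →
        Hopf6.gbc e R ≤ -(roundGB c * (1 + (-scalar e R / c - 30) / 240)) ∧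
        Hopf6.gbc e R ≤ -(roundGB c) ∧
        (Hopf6.gbc e R = -(roundGB c) ↔
          ∀ x y : V, ‖x‖ = 1 → ‖y‖ = 1 → inner ℝ x y = 0 → R x y x y = -c)) ∧
    (∀ (M : Type) [MeasurableSpace M] (μ : Measure M) (K : CurvField M) (c : M → ℝ), μ ≠ 0 →
      (∀ p, 0 < c p ∧ K.SecIn p (-(6 * c p)) (-(c p))) → Integrable K.gbc μ →
        ∫ p, K.gbc p ∂μ < 0) ∧
    (∀ (M : Type) [MeasurableSpace M] (μ : Measure M) [IsFiniteMeasure μ] (K : CurvField M)
      (c : ℝ), 0 < c → (∀ p, K.SecIn p (-(6 * c)) (-c)) → Integrable K.gbc μ →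
        ∫ p, K.gbc p ∂μ ≤ -(roundGB c * μ.real Set.univ) ∧
        (∫ p, K.gbc p ∂μ = -(roundGB c * μ.real Set.univ) →
          ∀ᵐ p ∂μ, ∀ x y : K.V p, ‖x‖ = 1 → ‖y‖ = 1 → inner ℝ x y = 0 →
            K.R p x y x y = -c)) := by
  refine ⟨fun V _ _ e R hR c hc h => six_all e hR hc h, fun M _ μ K c hμ h hint => ?_,
    fun M _ μ _ K c hc h hint => ?_⟩
  · refine int_neg μ K hμ (fun p => ?_) hint
    have h1 := (six_all (K.e p) (K.curv p) (h p).1 (h p).2).2.1
    have h2 := roundGB_pos (h p).1
    exact lt_of_le_of_lt h1 (by linarith)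
  · have h1 : ∀ p, K.gbc p ≤ -(roundGB c) := fun p => (six_all (K.e p) (K.curv p) hc (h p)).2.1
    refine ⟨int_vol μ K h1 hint, fun he => ?_⟩
    filter_upwards [int_vol_eq μ K h1 hint he] with p hp
    exact (six_all (K.e p) (K.curv p) hc (h p)).2.2.1 hp

end Pool.Agent.Results.MP_9d0d86_gt.SixthPinchingDimSix
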